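import Pool.Agent.H648.Q.Defs

/-! Task Q648-BDD (helper354, for helper648): the restricted angular sums are bounded in mean
square. -/

set_option autoImplicit false

namespace Pool.Agent.H354.Q648

open Finset Filter
open Pool.Agent.H376R2.MR
open Pool.Agent.W78.GA
open Pool.Agent.W78.GS (Pm)
open Pool.Agent.H648.Q

theorem disc_L {b m : ℤ} (hD : b ^ 2 < 4 * m) {L : ℕ} (hL : 1 ≤ L) :
    (b * L) ^ 2 < 4 * (m * L ^ 2) := by
  have h1 : (0 : ℤ) < (L : ℤ) ^ 2 := by positivity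
  nlinarith [mul_lt_mul_of_pos_right hD h1]

theorem bdd_of {g : ℕ → ℤ} {b m : ℤ} (hg : Pm g) (hD : b ^ 2 < 4 * m) : S_BDD g b m := by
  classical
  intro L e hL
  have hD' := disc_L hD hL
  obtain ⟨C₂, hC₂, h2⟩ := Pool.Agent.W327.GA.ls hD'
  obtain ⟨C₄, hC₄, h4⟩ := win_mass hD' (Pool.Agent.W45.GA.lat hD')
  have he2 : 0 < Real.exp 2 := Real.exp_pos _
  refine ⟨C₂ * (1 + Real.exp 1) * (Real.exp 2 * C₄), 1, le_rfl, Real.exp 3, fun Z hZ3 => ?_⟩
  have hZpos : 0 < Z := (Real.exp_pos _).trans_le hZ3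
  have hZ1 : 1 ≤ Z := (Real.one_le_exp (by norm_num)).trans hZ3
  have he12 : Real.exp 1 ≤ Real.exp 2 := Real.exp_le_exp.2 (by norm_num)
  set t : ℤ := b * L with ht
  set c : ℤ := m * L ^ 2 with hc
  set s := (UU b m L e (Real.exp 1 * Z)).filter (fun z => bg Z z ≠ 0) with hs
  have hsp : ∀ z ∈ s, prim z ∧ (nm z : ℝ) ≤ Real.exp 1 * Z := by
    intro z hz
    rw [hs, mem_filter, UU, mem_filter, mem_pball hD'] at hz
    exact hz.1.1
  have hsw : s ⊆ win t c Z := by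
    intro z hz
    have hz1 := hsp z hz
    rw [hs, mem_filter] at hz
    have hz0 := prim_ne_zero hz1.1
    have h5 := bg_ne hD' hZpos hz0 hz.2
    rw [mem_win hD']
    refine ⟨(one_le_nm hD').2 hz0, le_trans ?_ h5.1, h5.2.trans ?_⟩
    · exact div_le_div_of_nonneg_left hZpos.le (Real.exp_pos _) he12
    · exact mul_le_mul_of_nonneg_right he12 hZpos.le
  have hGA : ∀ k : ℤ, GU g b m L e Z k = DPG s (fun z => (g (nm z) : ℂ) * (bg Z z : ℂ)) k := by
    intro k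
    unfold GU DPG
    symm
    refine Finset.sum_filter_of_ne fun z _ hne h0 => ?_
    apply hne
    simp [h0]
  have h6 : Z * ∑ z ∈ s, ‖(g (nm z) : ℂ) * (bg Z z : ℂ)‖ ^ 2 ≤ Real.exp 2 * C₄ := by
    rw [Finset.mul_sum]
    calc ∑ z ∈ s, Z * ‖(g (nm z) : ℂ) * (bg Z z : ℂ)‖ ^ 2
        ≤ ∑ z ∈ s, Real.exp 2 * (1 / (nm z : ℝ)) := by
          refine sum_le_sum fun z hz => ?_
          have hzw := hsw hz
          rw [mem_win hD'] at hzw
          have hn : (0 : ℝ) < nm z := by exact_mod_cast hzw.1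
          have h7 : ‖(g (nm z) : ℂ) * (bg Z z : ℂ)‖ ≤ 1 / nm z := by
            rw [norm_mul, Complex.norm_intCast, Complex.norm_real, Real.norm_eq_abs,
              abs_of_nonneg (bg_nonneg _ _)]
            have h8 : |(g (nm z) : ℝ)| ≤ 1 := by
              rcases hg.val (nm z) with h | h <;> rw [h] <;> norm_num
            calc |(g (nm z) : ℝ)| * bg Z z ≤ 1 * (1 / nm z) :=
                  mul_le_mul h8 (bg_le _ _) (bg_nonneg _ _) zero_le_one
              _ = 1 / nm z := one_mul _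
          have h9 : Z ≤ Real.exp 2 * nm z := by
            have := hzw.2.1
            rw [div_le_iff₀ he2] at this
            linarith
          calc Z * ‖(g (nm z) : ℂ) * (bg Z z : ℂ)‖ ^ 2 ≤ (Real.exp 2 * nm z) * (1 / nm z) ^ 2 := by
                gcongr
            _ = Real.exp 2 * (1 / (nm z : ℝ)) := by field_simp
      _ = Real.exp 2 * ∑ z ∈ s, 1 / (nm z : ℝ) := by rw [Finset.mul_sum]
      _ ≤ Real.exp 2 * ∑ z ∈ win t c Z, 1 / (nm z : ℝ) := by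
          gcongr
      _ ≤ Real.exp 2 * C₄ := by
          gcongr
          exact h4 Z hZ3
  set K : ℕ := ⌊Z / 1⌋₊ with hK
  have hKZ : (K : ℝ) ≤ Z := by
    rw [hK, div_one]; exact Nat.floor_le hZpos.le
  have hK1 : 1 ≤ K := by
    rw [hK, div_one]; exact Nat.le_floor (by exact_mod_cast hZ1)
  have heZ : 1 ≤ Real.exp 1 * Z := by
    have : 1 ≤ Real.exp 1 := Real.one_le_exp (by norm_num)
    nlinarith
  have h5 := h2 (Real.exp 1 * Z) K s (fun z => (g (nm z) : ℂ) * (bg Z z : ℂ)) heZ hK1 hsp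
  calc ∑ k ∈ (FK K).erase 0, ‖GU g b m L e Z k‖ ^ 2
      ≤ ∑ k ∈ FK K, ‖GU g b m L e Z k‖ ^ 2 :=
        sum_le_sum_of_subset_of_nonneg (erase_subset _ _) fun _ _ _ => by positivity
    _ = ∑ k ∈ FK K, ‖DPG s (fun z => (g (nm z) : ℂ) * (bg Z z : ℂ)) k‖ ^ 2 := by
        refine sum_congr rfl fun k _ => by rw [hGA k]
    _ ≤ C₂ * (K + Real.exp 1 * Z) * ∑ z ∈ s, ‖(g (nm z) : ℂ) * (bg Z z : ℂ)‖ ^ 2 := h5
    _ ≤ C₂ * (Z + Real.exp 1 * Z) * ∑ z ∈ s, ‖(g (nm z) : ℂ) * (bg Z z : ℂ)‖ ^ 2 := by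
        gcongr
    _ = C₂ * (1 + Real.exp 1) * (Z * ∑ z ∈ s, ‖(g (nm z) : ℂ) * (bg Z z : ℂ)‖ ^ 2) := by ring
    _ ≤ C₂ * (1 + Real.exp 1) * (Real.exp 2 * C₄) := by gcongr

end Pool.Agent.H354.Q648
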