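import Pool.Agent.H648.Q.Defs
import Pool.Agent.H354.Q648.BDD

/-! Task Q648-REC (helper354, for helper648): recursion for the restricted angular sums. -/

set_option autoImplicit false

namespace Pool.Agent.H354.Q648

open Finset Filter
open Pool.Agent.H376R2.MR
open Pool.Agent.W78.GA
open Pool.Agent.W78.GS (Pm)
open Pool.Agent.H648.Q

variable {b m : ℤ} {L : ℕ}

/-- `⟨x, y⟩ ↦ ⟨p x, y⟩` -/
def up (p : ℕ) (z : Qd (b * L) (m * L ^ 2)) : Qd (b * ((p * L : ℕ) : ℤ)) (m * ((p * L : ℕ) : ℤ) ^ 2) :=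
  ⟨p * z.re, z.im⟩

/-- `⟨x, y⟩ ↦ ⟨x, p y⟩` -/
def dn (p : ℕ) (z : Qd (b * ((p * L : ℕ) : ℤ)) (m * ((p * L : ℕ) : ℤ) ^ 2)) :
    Qd (b * L) (m * L ^ 2) := ⟨z.re, p * z.im⟩

lemma nm_up (p : ℕ) (z : Qd (b * L) (m * L ^ 2)) : nm (up p z) = p ^ 2 * nm z := by
  unfold nm up
  have e : ((p : ℤ) * z.re) ^ 2 + b * ((p * L : ℕ) : ℤ) * ((p : ℤ) * z.re) * z.im +
      m * ((p * L : ℕ) : ℤ) ^ 2 * z.im ^ 2 =
      (p : ℤ) ^ 2 * (z.re ^ 2 + b * L * z.re * z.im + m * L ^ 2 * z.im ^ 2) := by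
    push_cast; ring
  rw [e, Int.natAbs_mul, Int.natAbs_pow, Int.natAbs_natCast]

lemma nm_dn (p : ℕ) (z : Qd (b * ((p * L : ℕ) : ℤ)) (m * ((p * L : ℕ) : ℤ) ^ 2)) :
    nm (dn p z) = nm z := by
  unfold nm dn
  have e : z.re ^ 2 + b * L * z.re * ((p : ℤ) * z.im) + m * L ^ 2 * ((p : ℤ) * z.im) ^ 2 =
      z.re ^ 2 + b * ((p * L : ℕ) : ℤ) * z.re * z.im + m * ((p * L : ℕ) : ℤ) ^ 2 * z.im ^ 2 := by
    push_cast; ring
  rw [e]

lemma sqrt_pL (p : ℕ) : Real.sqrt (4 * ((m * ((p * L : ℕ) : ℤ) ^ 2 : ℤ) : ℝ) -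
    ((b * ((p * L : ℕ) : ℤ) : ℤ) : ℝ) ^ 2) =
    p * Real.sqrt (4 * ((m * (L : ℤ) ^ 2 : ℤ) : ℝ) - ((b * (L : ℤ) : ℤ) : ℝ) ^ 2) := by
  have e : 4 * ((m * ((p * L : ℕ) : ℤ) ^ 2 : ℤ) : ℝ) - ((b * ((p * L : ℕ) : ℤ) : ℤ) : ℝ) ^ 2 =
      (p : ℝ) ^ 2 * (4 * ((m * (L : ℤ) ^ 2 : ℤ) : ℝ) - ((b * (L : ℤ) : ℤ) : ℝ) ^ 2) := by
    push_cast; ring
  rw [e, Real.sqrt_mul (by positivity), Real.sqrt_sq (by positivity)]

lemma tc_up (p : ℕ) (z : Qd (b * L) (m * L ^ 2)) : tc (up p z) = (p : ℂ) * tc z := by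
  apply Complex.ext
  · rw [tc_re, ← Complex.ofReal_natCast, Complex.re_ofReal_mul, tc_re]
    simp only [up]
    push_cast
    ring
  · rw [tc_im, sqrt_pL, ← Complex.ofReal_natCast, Complex.im_ofReal_mul, tc_im]
    simp only [up]
    ring

lemma tc_dn (p : ℕ) (z : Qd (b * ((p * L : ℕ) : ℤ)) (m * ((p * L : ℕ) : ℤ) ^ 2)) :
    tc (dn p z) = tc z := by
  apply Complex.ext
  · rw [tc_re, tc_re]
    simp only [dn]
    push_cast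
    ring
  · rw [tc_im, tc_im, sqrt_pL]
    simp only [dn]
    push_cast
    ring

lemma ps_up (p : ℕ) (hp : 0 < p) (k : ℤ) (z : Qd (b * L) (m * L ^ 2)) :
    ps k (up p z) = ps k z := by
  unfold ps
  have hp' : (p : ℂ) ≠ 0 := by exact_mod_cast hp.ne'
  rw [tc_up, norm_mul, Complex.norm_natCast]
  push_cast
  rw [mul_div_mul_left _ _ hp']

lemma ps_dn (p : ℕ) (k : ℤ) (z : Qd (b * ((p * L : ℕ) : ℤ)) (m * ((p * L : ℕ) : ℤ) ^ 2)) :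
    ps k (dn p z) = ps k z := by
  unfold ps
  rw [tc_dn]

lemma bg_up (p : ℕ) (hp : 0 < p) {Y : ℝ} (hY : 0 < Y) (z : Qd (b * L) (m * L ^ 2))
    (hz : 0 < nm z) : bg Y (up p z) = bg (Y / (p : ℝ) ^ 2) z / (p : ℝ) ^ 2 := by
  have hp' : (0 : ℝ) < p := by exact_mod_cast hp
  have hz' : (0 : ℝ) < nm z := by exact_mod_cast hz
  unfold bg
  rw [nm_up]
  push_cast
  rw [Real.log_mul (by positivity) (by positivity), Real.log_div (by positivity) (by positivity)]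
  have e : Real.log ((p : ℝ) ^ 2) + Real.log (nm z) - Real.log Y =
      Real.log (nm z) - (Real.log Y - Real.log ((p : ℝ) ^ 2)) := by ring
  rw [e, div_div, mul_comm ((p : ℝ) ^ 2)]

lemma bg_dn (p : ℕ) (Y : ℝ) (z : Qd (b * ((p * L : ℕ) : ℤ)) (m * ((p * L : ℕ) : ℤ) ^ 2)) :
    bg Y (dn p z) = bg Y z := by
  unfold bg
  rw [nm_dn]

/-! ### coprimality -/

lemma gcd_mul_left' {p : ℕ} (hp : p.Prime) (x y : ℤ) :
    Int.gcd (p * x) y = 1 ↔ Int.gcd x y = 1 ∧ ¬ (p : ℤ) ∣ y := by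
  rw [← Int.isCoprime_iff_gcd_eq_one, ← Int.isCoprime_iff_gcd_eq_one, IsCoprime.mul_left_iff,
    (Nat.prime_iff_prime_int.1 hp).coprime_iff_not_dvd, and_comm]

lemma gcd_mul_right' {p : ℕ} (hp : p.Prime) (x y : ℤ) :
    Int.gcd x (p * y) = 1 ↔ Int.gcd x y = 1 ∧ ¬ (p : ℤ) ∣ x := by
  rw [Int.gcd_comm, gcd_mul_left' hp, Int.gcd_comm]

lemma prim_up {p : ℕ} (hp : p.Prime) (z : Qd (b * L) (m * L ^ 2)) :
    prim (up p z) ↔ prim z ∧ ¬ (p : ℤ) ∣ z.im := gcd_mul_left' hp _ _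

lemma prim_dn {p : ℕ} (hp : p.Prime)
    (z : Qd (b * ((p * L : ℕ) : ℤ)) (m * ((p * L : ℕ) : ℤ) ^ 2)) :
    prim (dn p z) ↔ prim z ∧ ¬ (p : ℤ) ∣ z.re := gcd_mul_right' hp _ _

lemma mem_UU (hD : b ^ 2 < 4 * m) {L : ℕ} (hL : 1 ≤ L) {e : ℕ} {X : ℝ}
    {z : Qd (b * L) (m * L ^ 2)} :
    z ∈ UU b m L e X ↔ (prim z ∧ (nm z : ℝ) ≤ X) ∧ Int.gcd z.re e = 1 := by
  unfold UU
  rw [mem_filter, mem_pball (disc_L hD hL)]

/-- the first bijection -/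
lemma sum_up (hD : b ^ 2 < 4 * m) {L : ℕ} (hL : 1 ≤ L) {p : ℕ} (hp : p.Prime) {e : ℕ}
    (hpe : ¬ p ∣ e) (X : ℝ)
    (F : Qd (b * ((p * L : ℕ) : ℤ)) (m * ((p * L : ℕ) : ℤ) ^ 2) → ℂ) :
    ∑ z ∈ (UU b m L e (X / (p : ℝ) ^ 2)).filter (fun z => ¬ (p : ℤ) ∣ z.im), F (up p z) =
      ∑ z ∈ (UU b m (p * L) e X).filter (fun z => (p : ℤ) ∣ z.re), F z := by
  have hp0 : (0 : ℝ) < p := by exact_mod_cast hp.pos
  have hpZ : (p : ℤ) ≠ 0 := by exact_mod_cast hp.ne_zero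
  have hpL : 1 ≤ p * L := Nat.mul_pos hp.pos hL
  have hpe' : ¬ (p : ℤ) ∣ (e : ℤ) := fun h => hpe (Int.natCast_dvd_natCast.1 h)
  have key : ∀ z : Qd (b * L) (m * L ^ 2), z ∈ (UU b m L e (X / (p : ℝ) ^ 2)).filter
      (fun z => ¬ (p : ℤ) ∣ z.im) ↔ up p z ∈ UU b m (p * L) e X := by
    intro z
    rw [mem_filter, mem_UU hD hL, mem_UU hD hpL, prim_up hp, nm_up, le_div_iff₀ (by positivity)]
    have h1 : Int.gcd (up p z).re e = 1 ↔ Int.gcd z.re e = 1 := by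
      change Int.gcd (p * z.re) e = 1 ↔ _
      rw [gcd_mul_left' hp]
      exact ⟨fun h => h.1, fun h => ⟨h, hpe'⟩⟩
    rw [h1]
    push_cast
    rw [mul_comm ((p : ℝ) ^ 2)]
    tauto
  refine Finset.sum_nbij' (fun z => up p z) (fun z => ⟨z.re / p, z.im⟩) ?_ ?_ ?_ ?_ ?_
  · intro z hz
    rw [mem_filter]
    exact ⟨(key z).1 hz, dvd_mul_right _ _⟩
  · intro z hz
    rw [mem_filter] at hz
    rw [key]
    have e1 : up p (⟨z.re / p, z.im⟩ : Qd (b * L) (m * L ^ 2)) = z := by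
      apply QuadraticAlgebra.ext
      · exact Int.mul_ediv_cancel' hz.2
      · rfl
    rw [e1]
    exact hz.1
  · intro z _
    apply QuadraticAlgebra.ext
    · exact Int.mul_ediv_cancel_left _ hpZ
    · rfl
  · intro z hz
    rw [mem_filter] at hz
    apply QuadraticAlgebra.ext
    · exact Int.mul_ediv_cancel' hz.2
    · rfl
  · intro z _
    rfl

/-- the second bijection -/
lemma sum_dn (hD : b ^ 2 < 4 * m) {L : ℕ} (hL : 1 ≤ L) {p : ℕ} (hp : p.Prime) {e : ℕ}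
    (X : ℝ) (F : Qd (b * L) (m * L ^ 2) → ℂ) :
    ∑ z ∈ UU b m (p * L) (e * p) X, F (dn p z) =
      ∑ z ∈ (UU b m L e X).filter (fun z => (p : ℤ) ∣ z.im), F z := by
  have hpZ : (p : ℤ) ≠ 0 := by exact_mod_cast hp.ne_zero
  have hpL : 1 ≤ p * L := Nat.mul_pos hp.pos hL
  have key : ∀ z : Qd (b * ((p * L : ℕ) : ℤ)) (m * ((p * L : ℕ) : ℤ) ^ 2),
      z ∈ UU b m (p * L) (e * p) X ↔ dn p z ∈ UU b m L e X := by
    intro z
    rw [mem_UU hD hL, mem_UU hD hpL, prim_dn hp, nm_dn]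
    have h1 : Int.gcd z.re ((e * p : ℕ) : ℤ) = 1 ↔ Int.gcd z.re e = 1 ∧ ¬ (p : ℤ) ∣ z.re := by
      have : ((e * p : ℕ) : ℤ) = p * e := by push_cast; ring
      rw [this, gcd_mul_right' hp]
    rw [h1]
    change _ ↔ (_ ∧ _) ∧ Int.gcd z.re e = 1
    tauto
  refine Finset.sum_nbij' (fun z => dn p z) (fun z => ⟨z.re, z.im / p⟩) ?_ ?_ ?_ ?_ ?_
  · intro z hz
    rw [mem_filter]
    exact ⟨(key z).1 hz, dvd_mul_right _ _⟩
  · intro z hz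
    rw [mem_filter] at hz
    rw [key]
    have e1 : dn p (⟨z.re, z.im / p⟩ : Qd (b * ((p * L : ℕ) : ℤ)) (m * ((p * L : ℕ) : ℤ) ^ 2)) =
        z := by
      apply QuadraticAlgebra.ext
      · rfl
      · exact Int.mul_ediv_cancel' hz.2
    rw [e1]
    exact hz.1
  · intro z _
    apply QuadraticAlgebra.ext
    · rfl
    · exact Int.mul_ediv_cancel_left _ hpZ
  · intro z hz
    rw [mem_filter] at hz
    apply QuadraticAlgebra.ext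
    · rfl
    · exact Int.mul_ediv_cancel' hz.2
  · intro z _
    rfl

lemma filter_eq (hD : b ^ 2 < 4 * m) {L : ℕ} (hL : 1 ≤ L) {p : ℕ} (hp : p.Prime) (e : ℕ)
    (X : ℝ) : (UU b m L e X).filter (fun z => ¬ (p : ℤ) ∣ z.re) = UU b m L (e * p) X := by
  ext z
  rw [mem_filter, mem_UU hD hL, mem_UU hD hL]
  have h1 : Int.gcd z.re ((e * p : ℕ) : ℤ) = 1 ↔ Int.gcd z.re e = 1 ∧ ¬ (p : ℤ) ∣ z.re := by
    have : ((e * p : ℕ) : ℤ) = p * e := by push_cast; ring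
    rw [this, gcd_mul_right' hp]
  rw [h1]
  tauto

theorem rec_of {g : ℕ → ℤ} {b m : ℤ} (hg : Pm g) (hD : b ^ 2 < 4 * m) : S_REC g b m := by
  classical
  intro p L e hp hL he hpe Y hY k
  have hp0 : (0 : ℝ) < p := by exact_mod_cast hp.pos
  have hpL : 1 ≤ p * L := Nat.mul_pos hp.pos hL
  have hX : Real.exp 1 * (Y / (p : ℝ) ^ 2) = Real.exp 1 * Y / (p : ℝ) ^ 2 := by ring
  have h1 : GU g b m (p * L) e Y k = GU g b m (p * L) (e * p) Y k +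
      ∑ z ∈ (UU b m (p * L) e (Real.exp 1 * Y)).filter (fun z => (p : ℤ) ∣ z.re),
        ((g (nm z) : ℂ) * (bg Y z : ℂ)) * ps k z := by
    unfold GU DPG
    rw [← filter_eq hD hpL hp e, add_comm]
    exact (Finset.sum_filter_add_sum_filter_not _ _ _).symm
  have h2 : ∑ z ∈ (UU b m (p * L) e (Real.exp 1 * Y)).filter (fun z => (p : ℤ) ∣ z.re),
        ((g (nm z) : ℂ) * (bg Y z : ℂ)) * ps k z =
      (1 / (p : ℂ) ^ 2) * ∑ z ∈ (UU b m L e (Real.exp 1 * (Y / (p : ℝ) ^ 2))).filter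
        (fun z => ¬ (p : ℤ) ∣ z.im), ((g (nm z) : ℂ) * (bg (Y / (p : ℝ) ^ 2) z : ℂ)) * ps k z := by
    rw [← sum_up hD hL hp hpe, hX, mul_sum]
    apply Finset.sum_congr rfl
    intro z hz
    rw [mem_filter, mem_UU hD hL] at hz
    have hz0 : 0 < nm z := nm_pos (disc_L hD hL) (prim_ne_zero hz.1.1.1)
    rw [ps_up p hp.pos, bg_up p hp.pos hY z hz0, nm_up, hg.sq_mul hp.ne_zero hz0.ne']
    push_cast
    ring
  have h3 : ∑ z ∈ (UU b m L e (Real.exp 1 * (Y / (p : ℝ) ^ 2))).filter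
        (fun z => (p : ℤ) ∣ z.im), ((g (nm z) : ℂ) * (bg (Y / (p : ℝ) ^ 2) z : ℂ)) * ps k z =
      GU g b m (p * L) (e * p) (Y / (p : ℝ) ^ 2) k := by
    rw [← sum_dn hD hL hp]
    unfold GU DPG
    apply Finset.sum_congr rfl
    intro z _
    rw [ps_dn, bg_dn, nm_dn]
  have h4 : GU g b m L e (Y / (p : ℝ) ^ 2) k =
      ∑ z ∈ (UU b m L e (Real.exp 1 * (Y / (p : ℝ) ^ 2))).filter
        (fun z => (p : ℤ) ∣ z.im), ((g (nm z) : ℂ) * (bg (Y / (p : ℝ) ^ 2) z : ℂ)) * ps k z +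
      ∑ z ∈ (UU b m L e (Real.exp 1 * (Y / (p : ℝ) ^ 2))).filter
        (fun z => ¬ (p : ℤ) ∣ z.im), ((g (nm z) : ℂ) * (bg (Y / (p : ℝ) ^ 2) z : ℂ)) * ps k z := by
    unfold GU DPG
    exact (Finset.sum_filter_add_sum_filter_not _ _ _).symm
  rw [h1, h2, h4, h3]
  ring

end Pool.Agent.H354.Q648
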